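import Pool.Agent.Lib.EinsteinSix.Sl.B2.Def

set_option maxRecDepth 100000

namespace EinsteinSix.Sl

theorem ckB2_0 : ckB2 0 = true := by decide +kernel
theorem ckB2_13 : ckB2 13 = true := by decide +kernel
theorem ckB2_24 : ckB2 24 = true := by decide +kernel
theorem ckB2_27 : ckB2 27 = true := by decide +kernel
theorem ckB2_34 : ckB2 34 = true := by decide +kernel

end EinsteinSix.Sl
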