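import Pool.Agent.Lib.EinsteinSix.Sl.B2.Def

set_option maxRecDepth 100000

namespace EinsteinSix.Sl

theorem ckB2_1 : ckB2 1 = true := by decide +kernel
theorem ckB2_9 : ckB2 9 = true := by decide +kernel
theorem ckB2_20 : ckB2 20 = true := by decide +kernel
theorem ckB2_26 : ckB2 26 = true := by decide +kernel
theorem ckB2_42 : ckB2 42 = true := by decide +kernel
theorem ckB2_46 : ckB2 46 = true := by decide +kernel
theorem ckB2_47 : ckB2 47 = true := by decide +kernel
theorem ckB2_48 : ckB2 48 = true := by decide +kernel
theorem ckB2_49 : ckB2 49 = true := by decide +kernel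
theorem ckB2_50 : ckB2 50 = true := by decide +kernel
theorem ckB2_51 : ckB2 51 = true := by decide +kernel
theorem ckB2_52 : ckB2 52 = true := by decide +kernel
theorem ckB2_53 : ckB2 53 = true := by decide +kernel
theorem ckB2_54 : ckB2 54 = true := by decide +kernel
theorem ckB2_55 : ckB2 55 = true := by decide +kernel
theorem ckB2_56 : ckB2 56 = true := by decide +kernel
theorem ckB2_57 : ckB2 57 = true := by decide +kernel
theorem ckB2_58 : ckB2 58 = true := by decide +kernel
theorem ckB2_59 : ckB2 59 = true := by decide +kernel
theorem ckB2_60 : ckB2 60 = true := by decide +kernel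
theorem ckB2_61 : ckB2 61 = true := by decide +kernel
theorem ckB2_62 : ckB2 62 = true := by decide +kernel
theorem ckB2_63 : ckB2 63 = true := by decide +kernel
theorem ckB2_64 : ckB2 64 = true := by decide +kernel
theorem ckB2_65 : ckB2 65 = true := by decide +kernel
theorem ckB2_66 : ckB2 66 = true := by decide +kernel
theorem ckB2_67 : ckB2 67 = true := by decide +kernel
theorem ckB2_68 : ckB2 68 = true := by decide +kernel
theorem ckB2_69 : ckB2 69 = true := by decide +kernel
theorem ckB2_70 : ckB2 70 = true := by decide +kernel
theorem ckB2_71 : ckB2 71 = true := by decide +kernel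
theorem ckB2_72 : ckB2 72 = true := by decide +kernel
theorem ckB2_73 : ckB2 73 = true := by decide +kernel
theorem ckB2_74 : ckB2 74 = true := by decide +kernel
theorem ckB2_75 : ckB2 75 = true := by decide +kernel

end EinsteinSix.Sl
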