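import Pool.Agent.Lib.EinsteinSix.Sl.B2.Def

set_option maxRecDepth 100000

namespace EinsteinSix.Sl

theorem ckB2_8 : ckB2 8 = true := by decide +kernel
theorem ckB2_10 : ckB2 10 = true := by decide +kernel
theorem ckB2_17 : ckB2 17 = true := by decide +kernel
theorem ckB2_19 : ckB2 19 = true := by decide +kernel
theorem ckB2_33 : ckB2 33 = true := by decide +kernel
theorem ckB2_44 : ckB2 44 = true := by decide +kernel

end EinsteinSix.Sl
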