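import Pool.Agent.Lib.EinsteinSix.Sl.B2.Def

set_option maxRecDepth 100000

namespace EinsteinSix.Sl

theorem ckB2_18 : ckB2 18 = true := by decide +kernel
theorem ckB2_31 : ckB2 31 = true := by decide +kernel
theorem ckB2_35 : ckB2 35 = true := by decide +kernel
theorem ckB2_37 : ckB2 37 = true := by decide +kernel
theorem ckB2_40 : ckB2 40 = true := by decide +kernel
theorem ckB2_45 : ckB2 45 = true := by decide +kernel

end EinsteinSix.Sl
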