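import Pool.Agent.Lib.EinsteinSix.Sl.B2.Def

set_option maxRecDepth 100000

namespace EinsteinSix.Sl

theorem ckB2_2 : ckB2 2 = true := by decide +kernel
theorem ckB2_11 : ckB2 11 = true := by decide +kernel
theorem ckB2_21 : ckB2 21 = true := by decide +kernel
theorem ckB2_36 : ckB2 36 = true := by decide +kernel
theorem ckB2_38 : ckB2 38 = true := by decide +kernel
theorem ckB2_43 : ckB2 43 = true := by decide +kernel

end EinsteinSix.Sl
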