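import Pool.Agent.Lib.EinsteinSix.Sl.B2.Def

set_option maxRecDepth 100000

namespace EinsteinSix.Sl

theorem ckB2_6 : ckB2 6 = true := by decide +kernel
theorem ckB2_14 : ckB2 14 = true := by decide +kernel
theorem ckB2_25 : ckB2 25 = true := by decide +kernel
theorem ckB2_29 : ckB2 29 = true := by decide +kernel
theorem ckB2_30 : ckB2 30 = true := by decide +kernel
theorem ckB2_39 : ckB2 39 = true := by decide +kernel

end EinsteinSix.Sl
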