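import Pool.Agent.Lib.EinsteinSix.Sl.B2.Def

set_option maxRecDepth 100000

namespace EinsteinSix.Sl

theorem ckB2_3 : ckB2 3 = true := by decide +kernel
theorem ckB2_5 : ckB2 5 = true := by decide +kernel
theorem ckB2_12 : ckB2 12 = true := by decide +kernel
theorem ckB2_22 : ckB2 22 = true := by decide +kernel
theorem ckB2_23 : ckB2 23 = true := by decide +kernel
theorem ckB2_28 : ckB2 28 = true := by decide +kernel

end EinsteinSix.Sl
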