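import Pool.Agent.Lib.EinsteinSix.Sl.B2.Def

set_option maxRecDepth 100000

namespace EinsteinSix.Sl

theorem ckB2_4 : ckB2 4 = true := by decide +kernel
theorem ckB2_7 : ckB2 7 = true := by decide +kernel
theorem ckB2_15 : ckB2 15 = true := by decide +kernel
theorem ckB2_16 : ckB2 16 = true := by decide +kernel
theorem ckB2_32 : ckB2 32 = true := by decide +kernel
theorem ckB2_41 : ckB2 41 = true := by decide +kernel

end EinsteinSix.Sl
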