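import Pool.Agent.Lib.EinsteinSix.Sl.B2.Chk0
import Pool.Agent.Lib.EinsteinSix.Sl.B2.Chk1
import Pool.Agent.Lib.EinsteinSix.Sl.B2.Chk2
import Pool.Agent.Lib.EinsteinSix.Sl.B2.Chk3
import Pool.Agent.Lib.EinsteinSix.Sl.B2.Chk4
import Pool.Agent.Lib.EinsteinSix.Sl.B2.Chk5
import Pool.Agent.Lib.EinsteinSix.Sl.B2.Chk6
import Pool.Agent.Lib.EinsteinSix.Sl.B2.Chk7

namespace EinsteinSix.Sl

theorem ckB2_all : ∀ k < 76, ckB2 k = true := by
  intro k hk
  match k, hk with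
  | 0, _ => exact ckB2_0
  | 1, _ => exact ckB2_1
  | 2, _ => exact ckB2_2
  | 3, _ => exact ckB2_3
  | 4, _ => exact ckB2_4
  | 5, _ => exact ckB2_5
  | 6, _ => exact ckB2_6
  | 7, _ => exact ckB2_7
  | 8, _ => exact ckB2_8
  | 9, _ => exact ckB2_9
  | 10, _ => exact ckB2_10
  | 11, _ => exact ckB2_11
  | 12, _ => exact ckB2_12
  | 13, _ => exact ckB2_13
  | 14, _ => exact ckB2_14
  | 15, _ => exact ckB2_15
  | 16, _ => exact ckB2_16
  | 17, _ => exact ckB2_17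
  | 18, _ => exact ckB2_18
  | 19, _ => exact ckB2_19
  | 20, _ => exact ckB2_20
  | 21, _ => exact ckB2_21
  | 22, _ => exact ckB2_22
  | 23, _ => exact ckB2_23
  | 24, _ => exact ckB2_24
  | 25, _ => exact ckB2_25
  | 26, _ => exact ckB2_26
  | 27, _ => exact ckB2_27
  | 28, _ => exact ckB2_28
  | 29, _ => exact ckB2_29
  | 30, _ => exact ckB2_30
  | 31, _ => exact ckB2_31
  | 32, _ => exact ckB2_32
  | 33, _ => exact ckB2_33
  | 34, _ => exact ckB2_34
  | 35, _ => exact ckB2_35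
  | 36, _ => exact ckB2_36
  | 37, _ => exact ckB2_37
  | 38, _ => exact ckB2_38
  | 39, _ => exact ckB2_39
  | 40, _ => exact ckB2_40
  | 41, _ => exact ckB2_41
  | 42, _ => exact ckB2_42
  | 43, _ => exact ckB2_43
  | 44, _ => exact ckB2_44
  | 45, _ => exact ckB2_45
  | 46, _ => exact ckB2_46
  | 47, _ => exact ckB2_47
  | 48, _ => exact ckB2_48
  | 49, _ => exact ckB2_49
  | 50, _ => exact ckB2_50
  | 51, _ => exact ckB2_51
  | 52, _ => exact ckB2_52
  | 53, _ => exact ckB2_53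
  | 54, _ => exact ckB2_54
  | 55, _ => exact ckB2_55
  | 56, _ => exact ckB2_56
  | 57, _ => exact ckB2_57
  | 58, _ => exact ckB2_58
  | 59, _ => exact ckB2_59
  | 60, _ => exact ckB2_60
  | 61, _ => exact ckB2_61
  | 62, _ => exact ckB2_62
  | 63, _ => exact ckB2_63
  | 64, _ => exact ckB2_64
  | 65, _ => exact ckB2_65
  | 66, _ => exact ckB2_66
  | 67, _ => exact ckB2_67
  | 68, _ => exact ckB2_68
  | 69, _ => exact ckB2_69
  | 70, _ => exact ckB2_70
  | 71, _ => exact ckB2_71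
  | 72, _ => exact ckB2_72
  | 73, _ => exact ckB2_73
  | 74, _ => exact ckB2_74
  | 75, _ => exact ckB2_75
  | n + 76, h => exact absurd h (by omega)

end EinsteinSix.Sl
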