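import Pool.Agent.Lib.EinsteinSix.Sl.B2.Data
import Pool.Agent.Lib.EinsteinSix.Sl.Core
import Pool.Agent.Lib.EinsteinSix.HopfTP
/-!
# Slice B2: the check
-/

namespace EinsteinSix.Sl

open HopfKC

/-- Check of row `k` of slice B2. -/
noncomputable def ckB2 (k : ℕ) : Bool := roww NNB2 EinsteinSix.tb (fhw fTB2) rowsB2 tmsB2 k

end EinsteinSix.Sl
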