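import Pool.Agent.Lib.EinsteinSix.Sl.B2.ChkAll
import Pool.Agent.Lib.EinsteinSix.Sl.Pos
import Pool.Agent.Lib.EinsteinSix.HopfTP
import Pool.Agent.Lib.H56S.OkF

/-!
# Slice B2: `trT ≤ 3`
-/

set_option maxRecDepth 100000

open Finset H91.Split

namespace EinsteinSix.Sl

open HopfKC HopfKC.NT HopfKC.Gs

theorem okF_B2 : I76.all (ckFw fTB2) = true := all_ckFw_of_ckFu (by decide +kernel)

theorem okT_B2 : tmsB2.all tyOK = true := by decide +kernel

theorem okS_B2_0 : ckG (rw1 rowSB2_0) 1 (fun _ _ => sliceL 3 (-1)) = true := by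
  decide +kernel

theorem types_B2 : (tmsB2.all fun t => Nat.blt t.1 9) = true := by decide +kernel

theorem slack_B2 : (I76.all fun i => bif Nat.beq i 0 then (en (col tmB2_48.2.2 i)) == [(0, 1, 0)]
      else (en (col tmB2_48.2.2 i)) == []) = true := by decide +kernel

theorem slackW_B2 : ckR 1 tmB2_48.2.2 = true := by decide +kernel

theorem last_B2 : tmB2_48 ∈ tmsB2 := by
  unfold tmsB2
  simp only [List.mem_cons, true_or, or_true]

theorem const_B2 : 12 * NNB2 ≤ 192 * tmB2_48.2.1 := by decide +kernel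

theorem NNB2_pos : 0 < NNB2 := by decide +kernel

theorem pos_B2 {S : T6} (h : AdmE S) (h2 : trT S ≤ 3) :
    ∀ t ∈ tmsB2, 0 ≤ V (kpg (rwg rowsB2 t.1) t.2.2) (cv 1 S) := by
  intro t ht
  have hok := List.all_eq_true.1 okT_B2 t ht
  have hty : t.1 < 9 := Nat.le_of_ble_eq_true (List.all_eq_true.1 types_B2 t ht)
  have hrows : rowsB2 = allRows [rowSB2_0] := rfl
  rw [hrows]
  by_cases h8 : t.1 < 8
  · exact pos_common _ h h8 hok
  · have h9 : t.1 = 8 := by omega
    obtain ⟨a, d, W⟩ := t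
    simp only at h9
    subst h9
    exact slice_nonneg (α := 3) (β := -1) h.alg okS_B2_0 hok (by push_cast; linarith)

/-- Slice B2 with slack, for maximisers. -/
theorem main_B2 {S : T6} (h : AdmE S) (h2 : trT S ≤ 3)
    (hmax : ∀ g : M6, IsBlk g → g.transpose * g = 1 →
      P (fun k i j => (fhw fTB2 k i j : ℝ)) 76 (vq qd (H91.Split.rot g S)) ≤
        P (fun k i j => (fhw fTB2 k i j : ℝ)) 76 (vq qd S)) :
    12 * trT S ≤ HopfSix.gaussBonnet S + 96 * (4 - trT S) * ell (react S) := by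
  have hD : ∀ D : ℕ, AdmE (H91.Split.rot (dg D) S) := fun D => h.rot (dg_blk D) (dg_orth D)
  have key := slice_main (N := NNB2) (e := tb) (T := fTB2) (rows := rowsB2) (tms := tmsB2)
    ckB2_all okF_B2 h hmax
    (fun D => pos_B2 (hD D) (by rw [trT_dg h]; exact h2))
    last_B2 (fun D => by
      have := V_slack (hD D) (r := rw1 rowS0) ok_S0 slackW_B2 slack_B2
      rw [trT_dg h] at this
      exact this)
    (c := (HopfSix.gaussBonnet S + 96 * (4 - trT S) * ell (react S)) / 96) (fun D => by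
      have := target_B (hD D).lin
      rw [gb_rot S (dg_orth D), trT_dg h, ell_react_rot_blk h.alg (dg_blk D) (dg_orth D)] at this
      rw [this]
      ring)
  have h3 : (12 : ℝ) * (NNB2 : ℝ) ≤ 192 * (tmB2_48.2.1 : ℝ) := by exact_mod_cast const_B2
  have h4 : (0 : ℝ) < (NNB2 : ℝ) := by exact_mod_cast NNB2_pos
  have h5 := mul_le_mul_of_nonneg_right h3 (trT_nonneg_of h)
  by_contra hlt
  rw [not_le] at hlt
  have h6 := mul_lt_mul_of_pos_left hlt h4
  linarith

/-- **Slice B2** with slack. -/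
theorem slice_B2 {R : T6} (h : AdmE R) (h2 : trT R ≤ 3) :
    12 * trT R ≤ HopfSix.gaussBonnet R + 96 * (4 - trT R) * ell (react R) := by
  obtain ⟨S, hS, e1, e2, e4, hmax⟩ := h.exists_max (fun k i j => (fhw fTB2 k i j : ℝ)) 76 qd
  have e3 : trT S = trT R := by
    have g1 := ell_trT h.lin
    have g2 := ell_trT hS.lin
    rw [g1, g2] at e2
    linarith
  have := main_B2 hS (by rw [e3]; exact h2) hmax
  rwa [e3, e1, e4] at this

end EinsteinSix.Sl
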